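import Mathlib

/-!
# Stability for polynomials over `F_p` with range sum `p`

For every odd prime `p`, a non-constant polynomial over `F_p` with range sum `p` which is not an
affine translate of `E_1` or `E_2` has degree at least `10/19 (p-1)`.

Proof. Let `P` have degree `D < p` and range sum `p`, and let `w = ∏ (X - a)^(P(a))`,
`Θ = X^p - X`. Lagrange interpolation gives `P w = - Θ w'`, so that `κ = P + w'` satisfies
`κ w = w' (w - Θ)`, which gives `deg κ = 2 D + 1 - p`. Also `κ(a) = P(a)` whenever `P(a) ≥ 2`, and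
`∑_{P(a) ≥ 1} (P(a) - 1) = #{P = 0} ≤ D`. Let `M = ∏_{P(a) ≥ 2} (X - a)`, of degree `n`, and
`P (P - 1) M = Θ N`, `Q = 2 P - 1`. Then `M Q^2 = 4 N X^p + (M - 4 X N)`, so `Q` divides the
Wronskian of `N` and `M - 4 X N`. If the Wronskian is zero, `Q^2` is the `(p-1)`-st power of a linear
polynomial and `P` is an affine translate of `E_2`. If not, `2 p ≤ 3 D + 2 n`. If `κ` is not constant,
then each value `k ≥ 2` is taken at most `deg κ` times, and this gives a contradiction. If `κ` is
constant, all values `≥ 2` are equal, and one finds that `P` is an affine translate of `E_1`.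
-/

set_option autoImplicit false

open Polynomial

namespace Pool.Agent.Results.MP_b68c19_nt.Stability

/-! ## The definitions -/

/-- The range sum of a polynomial `P` over `F_p`: the sum over all `x` of the representative of
`P(x)` in `{0, 1, ..., p-1}`, taken in the integers. -/
def rangeSum (p : ℕ) [Fact p.Prime] (P : (ZMod p)[X]) : ℕ :=
  ∑ x : ZMod p, (P.eval x).val

/-- `E_1(x) = x^((p-1)/2) + 1`. -/
noncomputable def E1 (p : ℕ) : (ZMod p)[X] := X ^ ((p - 1) / 2) + 1

/-- `E_2(x) = ((p+1)/2) (x^((p-1)/2) + 1)`. -/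
noncomputable def E2 (p : ℕ) : (ZMod p)[X] :=
  C (((p + 1) / 2 : ℕ) : ZMod p) * (X ^ ((p - 1) / 2) + 1)

/-- `P` is an affine translate of `Q`. -/
def IsAffineTranslate {p : ℕ} (P Q : (ZMod p)[X]) : Prop :=
  ∃ a b : ZMod p, a ≠ 0 ∧ P = Q.comp (C a * X + C b)

/-! ## The polynomial `X ^ p - X` -/

section Theta

variable {p : ℕ} [hp : Fact p.Prime]

theorem prod_X_sub_C : ∏ a : ZMod p, (X - C a) = (X ^ p - X : (ZMod p)[X]) := by
  have h1 : roots (X ^ Fintype.card (ZMod p) - X : (ZMod p)[X]) = Finset.univ.val :=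
    FiniteField.roots_X_pow_card_sub_X (ZMod p)
  rw [ZMod.card] at h1
  have hdeg : (X ^ p - X : (ZMod p)[X]).natDegree = p :=
    FiniteField.X_pow_card_sub_X_natDegree_eq _ hp.out.one_lt
  have hmon : (X ^ p - X : (ZMod p)[X]).Monic := by
    apply monic_X_pow_sub
    rw [degree_X]
    exact_mod_cast hp.out.one_lt
  have h2 := prod_multiset_X_sub_C_of_monic_of_roots_card_eq hmon (by
    rw [h1, hdeg]
    simp [ZMod.card])
  rw [h1] at h2
  exact h2

theorem monic_theta : (X ^ p - X : (ZMod p)[X]).Monic := by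
  apply monic_X_pow_sub
  rw [degree_X]
  exact_mod_cast hp.out.one_lt

theorem natDegree_theta : (X ^ p - X : (ZMod p)[X]).natDegree = p :=
  FiniteField.X_pow_card_sub_X_natDegree_eq _ hp.out.one_lt

theorem derivative_X_pow_p : derivative (X ^ p : (ZMod p)[X]) = 0 := by
  rw [derivative_X_pow, CharP.cast_eq_zero, C_0, zero_mul]

theorem derivative_theta : derivative (X ^ p - X : (ZMod p)[X]) = -1 := by
  rw [derivative_sub, derivative_X_pow_p, derivative_X, zero_sub]

theorem eval_erase (a : ZMod p) :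
    (∏ b ∈ Finset.univ.erase a, (X - C b : (ZMod p)[X])).eval a = -1 := by
  have h := congrArg (eval a) (derivative_theta (p := p))
  rw [← prod_X_sub_C, derivative_prod_finset, eval_finsetSum,
    Finset.sum_eq_single a] at h
  · simpa using h
  · intro b _ hb
    rw [eval_mul, eval_prod, Finset.prod_eq_zero (i := a)]
    · simp
    · exact Finset.mem_erase.mpr ⟨hb.symm, Finset.mem_univ _⟩
    · simp
  · simp

/-- A polynomial that vanishes on `F_p` is divisible by `X ^ p - X`. -/
theorem theta_dvd {f : (ZMod p)[X]} (h : ∀ a, f.eval a = 0) : (X ^ p - X : (ZMod p)[X]) ∣ f := by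
  rw [← prod_X_sub_C]
  apply Finset.prod_dvd_of_coprime
  · intro a _ b _ hab
    exact pairwise_coprime_X_sub_C Function.injective_id hab
  · intro a _
    exact dvd_iff_isRoot.mpr (h a)

/-- Lagrange interpolation over `F_p`. -/
theorem interpolation {P : (ZMod p)[X]} (hP : P.natDegree < p) :
    P = -∑ a : ZMod p, C (P.eval a) * ∏ b ∈ Finset.univ.erase a, (X - C b) := by
  have h0 : P + ∑ a : ZMod p, C (P.eval a) * ∏ b ∈ Finset.univ.erase a, (X - C b) = 0 := by
    by_contra hne
    have h1 : (X ^ p - X : (ZMod p)[X]) ∣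
        P + ∑ a : ZMod p, C (P.eval a) * ∏ b ∈ Finset.univ.erase a, (X - C b) := by
      apply theta_dvd
      intro c
      rw [eval_add, eval_finsetSum, Finset.sum_eq_single c]
      · rw [eval_mul, eval_C, eval_erase]
        ring
      · intro b _ hb
        rw [eval_mul, eval_prod, Finset.prod_eq_zero (i := c)]
        · simp
        · exact Finset.mem_erase.mpr ⟨hb.symm, Finset.mem_univ _⟩
        · simp
      · simp
    have h2 := natDegree_le_of_dvd h1 hne
    rw [natDegree_theta] at h2
    have h3 : (P + ∑ a : ZMod p, C (P.eval a) *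
        ∏ b ∈ Finset.univ.erase a, (X - C b)).natDegree ≤ p - 1 := by
      refine (natDegree_add_le _ _).trans (max_le (by omega) ?_)
      refine natDegree_sum_le_of_forall_le _ _ fun a _ => ?_
      refine (natDegree_C_mul_le _ _).trans ?_
      rw [natDegree_prod_of_monic _ _ (fun b _ => monic_X_sub_C b)]
      simp [ZMod.card]
    have := hp.out.pos
    omega
  rw [← add_eq_zero_iff_eq_neg]
  exact h0

/-! ## The fully reducible polynomial attached to `P` -/

variable (P : (ZMod p)[X])

/-- `w = ∏ (X - a)^(P(a))`. -/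
noncomputable def w : (ZMod p)[X] := ∏ a : ZMod p, (X - C a) ^ (P.eval a).val

/-- `r = ∏ (X - a)^(P(a)-1)` over the `a` with `P(a) ≠ 0`. -/
noncomputable def r : (ZMod p)[X] := ∏ a : ZMod p, (X - C a) ^ ((P.eval a).val - 1)

/-- `τ = ∏ (X - a)` over the `a` with `P(a) = 0`. -/
noncomputable def tau : (ZMod p)[X] :=
  ∏ a : ZMod p, (X - C a) ^ (if P.eval a = 0 then 1 else 0)

/-- `M = ∏ (X - a)` over the `a` with `P(a) ≥ 2`. -/
noncomputable def M : (ZMod p)[X] :=
  ∏ a : ZMod p, (X - C a) ^ (if 2 ≤ (P.eval a).val then 1 else 0)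

theorem monic_w : (w P).Monic := monic_prod_of_monic _ _ fun a _ => (monic_X_sub_C a).pow _
theorem monic_r : (r P).Monic := monic_prod_of_monic _ _ fun a _ => (monic_X_sub_C a).pow _
theorem monic_tau : (tau P).Monic := monic_prod_of_monic _ _ fun a _ => (monic_X_sub_C a).pow _
theorem monic_M : (M P).Monic := monic_prod_of_monic _ _ fun a _ => (monic_X_sub_C a).pow _

theorem natDegree_prod_pow (n : ZMod p → ℕ) :
    (∏ a : ZMod p, (X - C a : (ZMod p)[X]) ^ n a).natDegree = ∑ a, n a := by
  rw [natDegree_prod_of_monic _ _ fun a _ => (monic_X_sub_C a).pow _]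
  refine Finset.sum_congr rfl fun a _ => ?_
  rw [(monic_X_sub_C a).natDegree_pow, natDegree_X_sub_C, mul_one]

theorem natDegree_w : (w P).natDegree = rangeSum p P := natDegree_prod_pow _

theorem w_mul_tau : w P * tau P = (X ^ p - X) * r P := by
  rw [← prod_X_sub_C, w, tau, r, ← Finset.prod_mul_distrib, ← Finset.prod_mul_distrib]
  refine Finset.prod_congr rfl fun a _ => ?_
  rw [← pow_add, ← pow_succ']
  congr 1
  split_ifs with h
  · rw [h, ZMod.val_zero]
  · have : (P.eval a).val ≠ 0 := by rwa [Ne, ZMod.val_eq_zero]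
    omega

variable {P}

theorem mul_w (hP : P.natDegree < p) : P * w P = -((X ^ p - X) * derivative (w P)) := by
  have h1 : (X ^ p - X) * derivative (w P) =
      (∑ a : ZMod p, C (P.eval a) * ∏ b ∈ Finset.univ.erase a, (X - C b)) * w P := by
    rw [w, derivative_prod_finset, Finset.mul_sum, Finset.sum_mul]
    refine Finset.sum_congr rfl fun a _ => ?_
    rw [← prod_X_sub_C, ← Finset.mul_prod_erase Finset.univ (fun a => (X - C a : (ZMod p)[X]))
      (Finset.mem_univ a), ← Finset.mul_prod_erase Finset.univ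
      (fun a => (X - C a : (ZMod p)[X]) ^ (P.eval a).val) (Finset.mem_univ a), derivative_X_sub_C_pow]
    rcases Nat.eq_zero_or_pos (P.eval a).val with h | h
    · rw [h]
      have : P.eval a = 0 := (ZMod.val_eq_zero _).mp h
      rw [this]
      simp
    · have e1 : ((P.eval a).val : ZMod p) = P.eval a := ZMod.natCast_zmod_val _
      have e2 : (X - C a : (ZMod p)[X]) ^ (P.eval a).val =
          (X - C a) ^ ((P.eval a).val - 1) * (X - C a) := by
        rw [← pow_succ, Nat.sub_add_cancel h]
      rw [e2, e1]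
      ring
  rw [h1, ← neg_mul, ← interpolation hP]

theorem kappa_mul_w (hP : P.natDegree < p) : (P + derivative (w P)) * w P =
    derivative (w P) * (w P - (X ^ p - X)) := by
  rw [add_mul, mul_w hP]
  ring

theorem mul_r (hP : P.natDegree < p) : P * r P = -(derivative (w P) * tau P) := by
  have h0 : (X ^ p - X : (ZMod p)[X]) ≠ 0 := monic_theta.ne_zero
  apply mul_left_cancel₀ h0
  calc (X ^ p - X) * (P * r P) = P * ((X ^ p - X) * r P) := by ring
    _ = (P * w P) * tau P := by rw [← w_mul_tau]; ring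
    _ = (X ^ p - X) * -(derivative (w P) * tau P) := by rw [mul_w hP]; ring

theorem prod_pow_dvd {f : (ZMod p)[X]} {n : ZMod p → ℕ} (h : ∀ a, (X - C a) ^ n a ∣ f) :
    ∏ a : ZMod p, (X - C a) ^ n a ∣ f := by
  apply Finset.prod_dvd_of_coprime
  · intro a _ b _ hab
    exact (pairwise_coprime_X_sub_C Function.injective_id hab).pow
  · intro a _
    exact h a

theorem tau_dvd : tau P ∣ P := by
  apply prod_pow_dvd
  intro a
  split_ifs with h
  · rw [pow_one]
    exact dvd_iff_isRoot.mpr h
  · rw [pow_zero]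
    exact one_dvd _

/-- There is `v` with `P = τ v`, `w' = - r v`. -/
theorem exists_v (hP : P.natDegree < p) :
    ∃ v : (ZMod p)[X], P = tau P * v ∧ derivative (w P) = -(r P * v) := by
  obtain ⟨v, hv⟩ := tau_dvd (P := P)
  refine ⟨v, hv, ?_⟩
  apply mul_right_cancel₀ (monic_tau P).ne_zero
  have h1 := mul_r hP
  have h2 : P * r P = (tau P * v) * r P := by
    conv_lhs => rw [hv]
    rw [← hv]
  rw [h2] at h1
  linear_combination h1

theorem natDegree_derivative_w (hP : P.natDegree < p) (hP0 : P ≠ 0)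
    (hS : rangeSum p P = p) : (derivative (w P)).natDegree = P.natDegree := by
  have h := congrArg natDegree (mul_w hP)
  have h1 : derivative (w P) ≠ 0 := by
    intro h0
    have h2 := mul_w hP
    rw [h0, mul_zero, neg_zero, mul_eq_zero] at h2
    rcases h2 with h2 | h2
    · exact hP0 h2
    · exact (monic_w P).ne_zero h2
  rw [natDegree_mul hP0 (monic_w P).ne_zero, natDegree_neg,
    natDegree_mul monic_theta.ne_zero h1, natDegree_theta, natDegree_w, hS] at h
  omega

theorem natDegree_derivative {f : (ZMod p)[X]} (hf : f.natDegree < p) :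
    (derivative f).natDegree = f.natDegree - 1 := by
  rcases Nat.eq_zero_or_pos f.natDegree with h | h
  · rw [derivative_of_natDegree_zero h, natDegree_zero, h]
  · refine le_antisymm (natDegree_derivative_le f) (le_natDegree_of_ne_zero ?_)
    rw [coeff_derivative, Nat.sub_add_cancel h]
    apply mul_ne_zero
    · rw [← leadingCoeff]
      intro h0
      rw [leadingCoeff_eq_zero.mp h0, natDegree_zero] at h
      exact lt_irrefl _ h
    · have e : (((f.natDegree - 1 : ℕ) : ZMod p) + 1) = ((f.natDegree : ℕ) : ZMod p) := by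
        rw [← Nat.cast_succ, Nat.succ_eq_add_one, Nat.sub_add_cancel h]
      rw [e]
      intro h0
      have := Nat.le_of_dvd h ((ZMod.natCast_eq_zero_iff _ _).mp h0)
      omega

theorem natDegree_eq_zero_of_derivative {f : (ZMod p)[X]} (hf : f.natDegree < p)
    (h : derivative f = 0) : f.natDegree = 0 := by
  by_contra h0
  have h1 : (derivative f).coeff (f.natDegree - 1) ≠ 0 := by
    rw [coeff_derivative, Nat.sub_add_cancel (Nat.pos_of_ne_zero h0)]
    apply mul_ne_zero
    · rw [← leadingCoeff]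
      intro h2
      rw [leadingCoeff_eq_zero.mp h2, natDegree_zero] at h0
      exact h0 rfl
    · have e : (((f.natDegree - 1 : ℕ) : ZMod p) + 1) = ((f.natDegree : ℕ) : ZMod p) := by
        rw [← Nat.cast_succ, Nat.succ_eq_add_one, Nat.sub_add_cancel (Nat.pos_of_ne_zero h0)]
      rw [e]
      intro h0'
      have := Nat.le_of_dvd (Nat.pos_of_ne_zero h0) ((ZMod.natCast_eq_zero_iff _ _).mp h0')
      omega
  rw [h, coeff_zero] at h1
  exact h1 rfl

theorem natDegree_u (hP : P.natDegree < p) (hP1 : 0 < P.natDegree)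
    (hS : rangeSum p P = p) : (w P - (X ^ p - X)).natDegree = P.natDegree + 1 := by
  have hP0 : P ≠ 0 := by
    rintro rfl
    simp at hP1
  have h1 : (derivative (w P - (X ^ p - X))).natDegree = P.natDegree := by
    rw [derivative_sub, derivative_theta, sub_neg_eq_add, ← C_1, natDegree_add_C,
      natDegree_derivative_w hP hP0 hS]
  have h2 : (w P - (X ^ p - X)).natDegree < p := by
    have hd : (w P).degree = (X ^ p - X : (ZMod p)[X]).degree := by
      rw [degree_eq_natDegree (monic_w P).ne_zero, degree_eq_natDegree monic_theta.ne_zero,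
        natDegree_w, hS, natDegree_theta]
    have h3 := degree_sub_lt_left hd (monic_w P).ne_zero
      ((monic_w P).leadingCoeff.trans monic_theta.leadingCoeff.symm)
    by_cases h0 : w P - (X ^ p - X) = 0
    · rw [h0, natDegree_zero]
      exact hp.out.pos
    · have h4 := natDegree_lt_natDegree h0 h3
      rwa [natDegree_w, hS] at h4
  rw [natDegree_derivative h2] at h1
  omega

theorem kappa_ne_zero (hP : P.natDegree < p) (hP1 : 0 < P.natDegree)
    (hS : rangeSum p P = p) : P + derivative (w P) ≠ 0 := by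
  intro h0
  have hP0 : P ≠ 0 := by
    rintro rfl
    simp at hP1
  have h1 := kappa_mul_w hP
  rw [h0, zero_mul, eq_comm, mul_eq_zero] at h1
  rcases h1 with h1 | h1
  · have := natDegree_derivative_w hP hP0 hS
    rw [h1, natDegree_zero] at this
    omega
  · have := natDegree_u hP hP1 hS
    rw [h1, natDegree_zero] at this
    omega

theorem natDegree_kappa (hP : P.natDegree < p) (hP1 : 0 < P.natDegree)
    (hS : rangeSum p P = p) :
    (P + derivative (w P)).natDegree + p = 2 * P.natDegree + 1 := by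
  have hP0 : P ≠ 0 := by
    rintro rfl
    simp at hP1
  have h1 : derivative (w P) ≠ 0 := by
    intro h0
    have := natDegree_derivative_w hP hP0 hS
    rw [h0, natDegree_zero] at this
    omega
  have h2 : w P - (X ^ p - X) ≠ 0 := by
    intro h0
    have := natDegree_u hP hP1 hS
    rw [h0, natDegree_zero] at this
    omega
  have h := congrArg natDegree (kappa_mul_w hP)
  rw [natDegree_mul (kappa_ne_zero hP hP1 hS) (monic_w P).ne_zero, natDegree_mul h1 h2,
    natDegree_w, hS, natDegree_derivative_w hP hP0 hS, natDegree_u hP hP1 hS] at h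
  omega

/-- At a point where `P ≥ 2`, `κ = P + w'` takes the value `P`. -/
theorem eval_kappa {a : ZMod p} (ha : 2 ≤ (P.eval a).val) (hP : P.natDegree < p) :
    (P + derivative (w P)).eval a = P.eval a := by
  obtain ⟨v, _, hv⟩ := exists_v hP
  rw [eval_add, hv, eval_neg, eval_mul, r, eval_prod,
    Finset.prod_eq_zero (Finset.mem_univ a), zero_mul, neg_zero, add_zero]
  rw [eval_pow, eval_sub, eval_X, eval_C, sub_self, zero_pow]
  omega

/-! ## Degrees -/

theorem natDegree_r_eq (hS : rangeSum p P = p) : (r P).natDegree = (tau P).natDegree := by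
  have h := congrArg natDegree (w_mul_tau P)
  rw [(monic_w P).natDegree_mul (monic_tau P), monic_theta.natDegree_mul (monic_r P),
    natDegree_w, hS, natDegree_theta] at h
  omega

theorem natDegree_tau_le (hP0 : P ≠ 0) : (tau P).natDegree ≤ P.natDegree :=
  natDegree_le_of_dvd tau_dvd hP0

/-! ## The Wronskian argument -/

theorem exists_gcd_form {N U : (ZMod p)[X]} (hN : N ≠ 0) :
    ∃ g N1 U1 : (ZMod p)[X], g ≠ 0 ∧ N = g * N1 ∧ U = g * U1 ∧ IsCoprime N1 U1 := by
  classical
  have hg0 : EuclideanDomain.gcd U N ≠ 0 := fun h => hN (EuclideanDomain.gcd_eq_zero_iff.mp h).2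
  have hab := EuclideanDomain.gcd_eq_gcd_ab U N
  obtain ⟨U1, hU1⟩ := EuclideanDomain.gcd_dvd_left U N
  obtain ⟨N1, hN1⟩ := EuclideanDomain.gcd_dvd_right U N
  generalize EuclideanDomain.gcdA U N = a at hab
  generalize EuclideanDomain.gcdB U N = b at hab
  generalize EuclideanDomain.gcd U N = g at hg0 hab hU1 hN1
  refine ⟨g, N1, U1, hg0, hN1, hU1, b, a, ?_⟩
  apply mul_left_cancel₀ hg0
  calc g * (b * N1 + a * U1) = (g * U1) * a + (g * N1) * b := by ring
    _ = U * a + N * b := by rw [← hU1, ← hN1]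
    _ = g * 1 := by rw [← hab, mul_one]

theorem proportional {N U : (ZMod p)[X]} (hN : N ≠ 0) (hNp : N.natDegree < p)
    (hUp : U.natDegree < p) (hW : wronskian N U = 0) : ∃ c : ZMod p, U = C c * N := by
  obtain ⟨g, N1, U1, hg0, rfl, rfl, hc⟩ := exists_gcd_form (U := U) hN
  have hw : wronskian N1 U1 = 0 := by
    have h1 : g * g * wronskian N1 U1 = 0 := by
      rw [← hW]
      simp only [wronskian, derivative_mul]
      ring
    rcases mul_eq_zero.mp h1 with h2 | h2
    · exact absurd h2 (mul_ne_zero hg0 hg0)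
    · exact h2
  rw [hc.wronskian_eq_zero_iff] at hw
  have hN10 : N1 ≠ 0 := by
    rintro rfl
    rw [mul_zero] at hN
    exact hN rfl
  have hdN : N1.natDegree < p :=
    lt_of_le_of_lt (natDegree_le_of_dvd (dvd_mul_left _ _) hN) hNp
  have hdU : U1.natDegree < p := by
    by_cases hU : U1 = 0
    · rw [hU, natDegree_zero]
      exact hp.out.pos
    · exact lt_of_le_of_lt (natDegree_le_of_dvd (dvd_mul_left _ _) (mul_ne_zero hg0 hU)) hUp
  have hN1c := eq_C_of_natDegree_eq_zero (natDegree_eq_zero_of_derivative hdN hw.1)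
  have hU1c := eq_C_of_natDegree_eq_zero (natDegree_eq_zero_of_derivative hdU hw.2)
  have hcN : N1.coeff 0 ≠ 0 := by
    intro h0
    rw [h0, C_0] at hN1c
    exact hN10 hN1c
  refine ⟨U1.coeff 0 / N1.coeff 0, ?_⟩
  have e : (C (U1.coeff 0 / N1.coeff 0) : (ZMod p)[X]) * N1 = U1 := by
    rw [hN1c, hU1c, ← C_mul]
    simp only [coeff_C_zero]
    rw [div_mul_cancel₀ _ hcN]
  calc g * U1 = g * (C (U1.coeff 0 / N1.coeff 0) * N1) := by rw [e]
    _ = C (U1.coeff 0 / N1.coeff 0) * (g * N1) := by ring

/-- Either `n_A = #{P ≥ 2}` is large or `(2 P - 1)^2` is a power of a linear polynomial. -/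
theorem dichotomy (hp2 : p ≠ 2) (hP : P.natDegree < p) (hP1 : 0 < P.natDegree)
    (hS : rangeSum p P = p) (hD : 3 * P.natDegree + 2 ≤ 2 * p) :
    2 * p ≤ 3 * P.natDegree + 2 * (M P).natDegree ∨
      ∃ c : ZMod p, (2 * P - 1) ^ 2 = (C 4 * X + C c) ^ (p - 1) := by
  have hP0 : P ≠ 0 := by
    rintro rfl
    simp at hP1
  have hnA : (M P).natDegree ≤ P.natDegree := by
    have h1 : (M P).natDegree ≤ (r P).natDegree := by
      rw [M, r, natDegree_prod_pow, natDegree_prod_pow]
      refine Finset.sum_le_sum fun a _ => ?_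
      split_ifs <;> omega
    exact (h1.trans_eq (natDegree_r_eq hS)).trans (natDegree_tau_le hP0)
  have hk := natDegree_kappa hP hP1 hS
  obtain ⟨N, hN⟩ : (X ^ p - X : (ZMod p)[X]) ∣ P * (P - 1) * M P := by
    apply theta_dvd
    intro a
    rw [eval_mul, eval_mul, eval_sub, eval_one]
    rcases Nat.lt_or_ge (P.eval a).val 2 with h | h
    · have h1 : P.eval a = ((P.eval a).val : ZMod p) := (ZMod.natCast_zmod_val _).symm
      have h2 : (P.eval a).val = 0 ∨ (P.eval a).val = 1 := by omega
      rcases h2 with h2 | h2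
      · rw [h1, h2]
        simp
      · rw [h1, h2]
        simp
    · have h3 : (M P).eval a = 0 := by
        rw [M, eval_prod, Finset.prod_eq_zero (Finset.mem_univ a)]
        rw [if_pos h, pow_one, eval_sub, eval_X, eval_C, sub_self]
      rw [h3, mul_zero]
  have h2ne : (2 : ZMod p) ≠ 0 := by
    intro h0
    have h1 : ((2 : ℕ) : ZMod p) = 0 := by exact_mod_cast h0
    have h3 := (ZMod.natCast_eq_zero_iff _ _).mp h1
    exact hp2 ((Nat.prime_dvd_prime_iff_eq hp.out Nat.prime_two).mp h3)
  have hP1d : (P - 1).natDegree = P.natDegree := by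
    rw [← C_1, natDegree_sub_C]
  have hPm1 : P - 1 ≠ 0 := by
    intro h0
    rw [h0, natDegree_zero] at hP1d
    omega
  have hlhs : P * (P - 1) * M P ≠ 0 := mul_ne_zero (mul_ne_zero hP0 hPm1) (monic_M P).ne_zero
  have hN0 : N ≠ 0 := by
    rintro rfl
    rw [mul_zero] at hN
    exact hlhs hN
  have hNdeg : N.natDegree + p = 2 * P.natDegree + (M P).natDegree := by
    have h := congrArg natDegree hN
    rw [natDegree_mul (mul_ne_zero hP0 hPm1) (monic_M P).ne_zero, natDegree_mul hP0 hPm1,
      hP1d, natDegree_mul monic_theta.ne_zero hN0, natDegree_theta] at h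
    omega
  have hU : (M P - 4 * X * N).natDegree ≤ N.natDegree + 1 := by
    refine (natDegree_sub_le _ _).trans (max_le (by omega) ?_)
    refine natDegree_mul_le.trans ?_
    have : (4 * X : (ZMod p)[X]).natDegree ≤ 1 := by
      rw [← map_ofNat C 4]
      exact (natDegree_C_mul_le _ _).trans natDegree_X_le
    omega
  have hMQ : M P * (2 * P - 1) ^ 2 = 4 * N * X ^ p + (M P - 4 * X * N) := by
    linear_combination 4 * hN
  have hdvd : (2 * P - 1) ∣ wronskian N (M P - 4 * X * N) := by
    have hd := congrArg derivative hMQ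
    rw [derivative_add, derivative_mul, derivative_mul (f := 4 * N), derivative_X_pow_p,
      mul_zero, add_zero, derivative_mul (f := 4), derivative_pow] at hd
    have h4 : derivative (4 : (ZMod p)[X]) = 0 := derivative_ofNat 4
    rw [h4, zero_mul, zero_add] at hd
    refine ⟨N * (derivative (M P) * (2 * P - 1) + M P * 2 * derivative (2 * P - 1)) -
      derivative N * M P * (2 * P - 1), ?_⟩
    rw [wronskian]
    simp only [Nat.cast_ofNat, map_ofNat, Nat.add_one_sub_one, pow_one] at hd
    linear_combination (-N) * hd + derivative N * hMQ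
  have hQd : (2 * P - 1).natDegree = P.natDegree := by
    rw [← C_1, natDegree_sub_C, ← map_ofNat C 2, natDegree_C_mul h2ne]
  by_cases hR : wronskian N (M P - 4 * X * N) = 0
  · right
    obtain ⟨c, hc⟩ := proportional hN0 (by omega) (by omega) hR
    refine ⟨c, ?_⟩
    have h4 : (C 4 : (ZMod p)[X]) = 4 := map_ofNat C 4
    have hM : M P = (C 4 * X + C c) * N := by
      rw [h4]
      linear_combination hc
    have h5 : (C 4 * X + C c : (ZMod p)[X]) ≠ 0 := by
      intro h0
      rw [h0, zero_mul] at hM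
      exact (monic_M P).ne_zero hM
    have h6 : (C 4 * X + C c : (ZMod p)[X]) ^ p = C 4 * X ^ p + C c := by
      rw [add_pow_char, mul_pow, ← C_pow, ← C_pow, ZMod.pow_card, ZMod.pow_card]
    apply mul_left_cancel₀ h5
    rw [← pow_succ', Nat.sub_add_cancel hp.out.one_le, h6]
    apply mul_left_cancel₀ hN0
    rw [hc, hM] at hMQ
    rw [h4] at hMQ ⊢
    linear_combination hMQ
  · left
    have h1 := natDegree_le_of_dvd hdvd hR
    have h2 := natDegree_wronskian_lt_add hR
    omega

theorem eval_eq_natCast (a : ZMod p) : P.eval a = ((P.eval a).val : ZMod p) :=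
  (ZMod.natCast_zmod_val _).symm

theorem two_ne_zero' (hp2 : p ≠ 2) : (2 : ZMod p) ≠ 0 := by
  intro h0
  have h1 : ((2 : ℕ) : ZMod p) = 0 := by exact_mod_cast h0
  have h3 := (ZMod.natCast_eq_zero_iff _ _).mp h1
  exact hp2 ((Nat.prime_dvd_prime_iff_eq hp.out Nat.prime_two).mp h3)

/-- An element whose `(p-1)/2`-th power is `-1`. -/
theorem exists_nonsq (hp2 : p ≠ 2) : ∃ η : ZMod p, η ≠ 0 ∧ η ^ ((p - 1) / 2) = -1 := by
  have hodd : p % 2 = 1 := (hp.out.eq_two_or_odd).resolve_left hp2
  obtain ⟨η, hη⟩ := FiniteField.exists_nonsquare (F := ZMod p) (by rwa [ZMod.ringChar_zmod_n])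
  have hη0 : η ≠ 0 := by
    rintro rfl
    exact hη (IsSquare.zero)
  refine ⟨η, hη0, ?_⟩
  have h1 : (p - 1) / 2 = p / 2 := by omega
  rw [h1]
  rcases ZMod.pow_div_two_eq_neg_one_or_one p hη0 with h | h
  · exact absurd ((ZMod.euler_criterion p hη0).mpr h) hη
  · exact h

/-- If `f ^ 2 = (C a * X + C b) ^ (p - 1)` then `f` is a translate of `± X ^ ((p-1)/2)`. -/
theorem sq_eq (hp2 : p ≠ 2) {f : (ZMod p)[X]} {a b : ZMod p} (ha : a ≠ 0)
    (h : f ^ 2 = (C a * X + C b) ^ (p - 1)) :
    ∃ a' b' : ZMod p, a' ≠ 0 ∧ f = (C a' * X + C b') ^ ((p - 1) / 2) := by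
  have hodd : p % 2 = 1 := (hp.out.eq_two_or_odd).resolve_left hp2
  have h1 : p - 1 = (p - 1) / 2 * 2 := by omega
  rw [h1, pow_mul, sq_eq_sq_iff_eq_or_eq_neg] at h
  rcases h with h | h
  · exact ⟨a, b, ha, h⟩
  · obtain ⟨η, hη0, hη⟩ := exists_nonsq hp2
    refine ⟨η * a, η * b, mul_ne_zero hη0 ha, ?_⟩
    have e : (C (η * a) * X + C (η * b) : (ZMod p)[X]) = C η * (C a * X + C b) := by
      rw [C_mul, C_mul]
      ring
    rw [e, mul_pow, ← C_pow, hη, h, C_neg, C_1]
    ring

theorem translate_E2 (hp2 : p ≠ 2) {c : ZMod p} (h : (2 * P - 1) ^ 2 = (C 4 * X + C c) ^ (p - 1)) :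
    IsAffineTranslate P (E2 p) := by
  have hodd : p % 2 = 1 := (hp.out.eq_two_or_odd).resolve_left hp2
  have h2 := two_ne_zero' hp2
  have h4 : (4 : ZMod p) ≠ 0 := by
    have : (4 : ZMod p) = 2 * 2 := by norm_num
    rw [this]
    exact mul_ne_zero h2 h2
  obtain ⟨a, b, ha, hab⟩ := sq_eq hp2 h4 h
  refine ⟨a, b, ha, ?_⟩
  have h5 : (2 : ZMod p) * (((p + 1) / 2 : ℕ) : ZMod p) = 1 := by
    have : 2 * ((p + 1) / 2) = p + 1 := by omega
    have := congrArg (Nat.cast : ℕ → ZMod p) this
    rwa [Nat.cast_mul, Nat.cast_add, Nat.cast_ofNat, Nat.cast_one,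
      CharP.cast_eq_zero (ZMod p) p, zero_add] at this
  have h6 : (C 2 : (ZMod p)[X]) * C ((((p + 1) / 2 : ℕ) : ZMod p)) = 1 := by
    rw [← C_mul, h5, C_1]
  have h7 : (C 2 : (ZMod p)[X]) ≠ 0 := by
    rw [Ne, C_eq_zero]
    exact h2
  apply mul_left_cancel₀ h7
  rw [E2, mul_comp, C_comp, add_comp, pow_comp, X_comp, one_comp, ← mul_assoc, h6, one_mul,
    ← hab, map_ofNat C 2]
  ring

/-- The number of `a` with `P(a) = k`, for `k ≥ 2`, is at most `deg κ`, if this is positive. -/
theorem card_value_le (hP : P.natDegree < p) (hk : 0 < (P + derivative (w P)).natDegree)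
    {k : ℕ} (hk2 : 2 ≤ k) :
    ∑ a : ZMod p, (if (P.eval a).val = k then 1 else 0) ≤
      (P + derivative (w P)).natDegree := by
  classical
  have hd : (P + derivative (w P) - C (k : ZMod p)).natDegree =
      (P + derivative (w P)).natDegree := natDegree_sub_C
  have h0 : P + derivative (w P) - C (k : ZMod p) ≠ 0 := by
    intro h
    rw [h, natDegree_zero] at hd
    omega
  rw [← Finset.card_filter, ← hd]
  refine le_trans ?_ (card_roots' _)
  refine le_trans (Finset.card_le_card ?_) (Multiset.toFinset_card_le _)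
  intro a ha
  rw [Finset.mem_filter] at ha
  rw [Multiset.mem_toFinset, mem_roots h0, IsRoot.def, eval_sub, eval_C,
    eval_kappa (by omega) hP, ← ha.2, ← eval_eq_natCast, sub_self]

theorem case_kappa_pos (hP : P.natDegree < p) (hP1 : 0 < P.natDegree)
    (hS : rangeSum p P = p) (hk : 0 < (P + derivative (w P)).natDegree)
    (hM : 2 * p ≤ 3 * P.natDegree + 2 * (M P).natDegree) :
    10 * p ≤ 19 * P.natDegree + 6 := by
  have hP0 : P ≠ 0 := by
    rintro rfl
    simp at hP1
  have n2 := card_value_le hP hk (le_refl 2)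
  have n3 := card_value_le hP hk (show 2 ≤ 3 by norm_num)
  have n4 := card_value_le hP hk (show 2 ≤ 4 by norm_num)
  have hkd := natDegree_kappa hP hP1 hS
  have h1 : 4 * (M P).natDegree ≤ (r P).natDegree +
      3 * (∑ a : ZMod p, (if (P.eval a).val = 2 then 1 else 0)) +
      2 * (∑ a : ZMod p, (if (P.eval a).val = 3 then 1 else 0)) +
      ∑ a : ZMod p, (if (P.eval a).val = 4 then 1 else 0) := by
    rw [M, r, natDegree_prod_pow, natDegree_prod_pow, Finset.mul_sum, Finset.mul_sum,
      Finset.mul_sum, ← Finset.sum_add_distrib, ← Finset.sum_add_distrib,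
      ← Finset.sum_add_distrib]
    refine Finset.sum_le_sum fun a _ => ?_
    split_ifs <;> omega
  have h2 := (natDegree_r_eq hS).trans_le (natDegree_tau_le hP0)
  omega

theorem natDegree_tau_of_kappa (hP : P.natDegree < p) (hP1 : 0 < P.natDegree)
    (hS : rangeSum p P = p) (hk : (P + derivative (w P)).natDegree = 0) :
    (tau P).natDegree = P.natDegree := by
  obtain ⟨v, hv, hv2⟩ := exists_v hP
  have h1 : v ∣ P + derivative (w P) := by
    refine ⟨tau P - r P, ?_⟩
    linear_combination hv + hv2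
  have h2 := natDegree_le_of_dvd h1 (kappa_ne_zero hP hP1 hS)
  have hv0 : v ≠ 0 := by
    rintro rfl
    rw [mul_zero] at hv
    rw [hv, natDegree_zero] at hP1
    exact lt_irrefl _ hP1
  have h3 := congrArg natDegree hv
  rw [natDegree_mul (monic_tau P).ne_zero hv0] at h3
  omega

theorem case_kappa_zero (hp2 : p ≠ 2) (hP : P.natDegree < p) (hP1 : 0 < P.natDegree)
    (hS : rangeSum p P = p) (hk : (P + derivative (w P)).natDegree = 0)
    (hM : 2 * p ≤ 3 * P.natDegree + 2 * (M P).natDegree) :
    IsAffineTranslate P (E1 p) := by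
  classical
  have hkd := natDegree_kappa hP hP1 hS
  have htau := natDegree_tau_of_kappa hP hP1 hS hk
  have hr := natDegree_r_eq hS
  -- all values at least `2` are equal
  obtain ⟨k0, hk0⟩ : ∃ k0 : ZMod p, P + derivative (w P) = C k0 :=
    ⟨_, eq_C_of_natDegree_eq_zero hk⟩
  have hval : ∀ a, 2 ≤ (P.eval a).val → (P.eval a).val = k0.val := by
    intro a ha
    have := eval_kappa ha hP
    rw [hk0, eval_C] at this
    rw [this]
  have hMr : (M P).natDegree * (k0.val - 1) = (r P).natDegree := by
    rw [M, r, natDegree_prod_pow, natDegree_prod_pow, Finset.sum_mul]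
    refine Finset.sum_congr rfl fun a _ => ?_
    split_ifs with h
    · rw [one_mul, hval a h]
    · omega
  have hk2 : k0.val = 2 := by
    rcases Nat.lt_or_ge k0.val 3 with h | h
    · have h1 : k0.val ≠ 0 ∧ k0.val ≠ 1 := by
        constructor
        · intro h0
          rw [h0] at hMr
          omega
        · intro h0
          rw [h0] at hMr
          omega
      omega
    · have h1 : (M P).natDegree * 2 ≤ (M P).natDegree * (k0.val - 1) :=
        Nat.mul_le_mul_left _ (by omega)
      omega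
  rw [hk2] at hMr
  -- the value `1` is taken exactly once
  have hone : ∑ a : ZMod p, (if (P.eval a).val = 1 then 1 else 0) = 1 := by
    have h1 : ∑ a : ZMod p, (1 : ℕ) = p := by simp [ZMod.card]
    have h2 : ∑ a : ZMod p, (1 : ℕ) = (M P).natDegree + (tau P).natDegree +
        ∑ a : ZMod p, (if (P.eval a).val = 1 then 1 else 0) := by
      rw [M, tau, natDegree_prod_pow, natDegree_prod_pow, ← Finset.sum_add_distrib,
        ← Finset.sum_add_distrib]
      refine Finset.sum_congr rfl fun a _ => ?_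
      have h3 : P.eval a = 0 ↔ (P.eval a).val = 0 := (ZMod.val_eq_zero _).symm
      simp only [h3]
      split_ifs <;> omega
    omega
  rw [← Finset.card_filter, Finset.card_eq_one] at hone
  obtain ⟨a₁, ha₁⟩ := hone
  have hmem : ∀ a, (P.eval a).val = 1 ↔ a = a₁ := by
    intro a
    have := Finset.ext_iff.mp ha₁ a
    simpa using this
  have hP0 : P ≠ 0 := by
    rintro rfl
    simp at hP1
  have hPa₁ : P.eval a₁ = 1 := by
    rw [eval_eq_natCast (P := P) a₁, (hmem a₁).mpr rfl, Nat.cast_one]
  -- `P (P - 2) (X - a₁)` vanishes on `F_p`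
  obtain ⟨N, hN⟩ : (X ^ p - X : (ZMod p)[X]) ∣ P * (P - 2) * (X - C a₁) := by
    apply theta_dvd
    intro a
    rw [eval_mul, eval_mul, eval_sub, eval_sub, eval_X, eval_C, eval_ofNat]
    rcases Nat.lt_or_ge (P.eval a).val 2 with h | h
    · have h2 : (P.eval a).val = 0 ∨ (P.eval a).val = 1 := by omega
      rcases h2 with h2 | h2
      · rw [(ZMod.val_eq_zero _).mp h2, zero_mul, zero_mul]
      · rw [(hmem a).mp h2, sub_self, mul_zero]
    · rw [eval_eq_natCast (P := P) a, hval a h, hk2, Nat.cast_ofNat, sub_self, mul_zero, zero_mul]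
  have hP2d : (P - 2).natDegree = P.natDegree := by
    rw [← map_ofNat C 2, natDegree_sub_C]
  have hPm2 : P - 2 ≠ 0 := by
    intro h0
    rw [h0, natDegree_zero] at hP2d
    omega
  have hN0 : N ≠ 0 := by
    rintro rfl
    rw [mul_zero] at hN
    exact mul_ne_zero (mul_ne_zero hP0 hPm2) (X_sub_C_ne_zero a₁) hN
  have hNdeg : N.natDegree = 0 := by
    have h := congrArg natDegree hN
    rw [natDegree_mul (mul_ne_zero hP0 hPm2) (X_sub_C_ne_zero a₁), natDegree_mul hP0 hPm2,
      hP2d, natDegree_mul monic_theta.ne_zero hN0, natDegree_theta, natDegree_X_sub_C] at h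
    omega
  obtain ⟨c, rfl⟩ : ∃ c, N = C c := ⟨_, eq_C_of_natDegree_eq_zero hNdeg⟩
  have hfrob : (X ^ p - X : (ZMod p)[X]) = (X - C a₁) ^ (p - 1) * (X - C a₁) - (X - C a₁) := by
    rw [← pow_succ, Nat.sub_add_cancel hp.out.one_le, sub_pow_char, ← C_pow, ZMod.pow_card]
    ring
  have hsq : (P - 1) ^ 2 - 1 = ((X - C a₁) ^ (p - 1) - 1) * C c := by
    apply mul_right_cancel₀ (X_sub_C_ne_zero a₁)
    rw [hfrob] at hN
    linear_combination hN
  have hc : c = 1 := by
    have h := congrArg (eval a₁) hsq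
    have hp1 : p - 1 ≠ 0 := by
      have := hp.out.two_le
      omega
    rw [eval_sub, eval_pow, eval_sub, hPa₁, eval_mul, eval_sub, eval_pow, eval_sub, eval_X,
      eval_C, eval_C, eval_one, sub_self, sub_self, zero_pow hp1,
      zero_pow two_ne_zero] at h
    linear_combination h
  rw [hc, C_1, mul_one, sub_left_inj] at hsq
  have hsq' : (P - 1) ^ 2 = (C 1 * X + C (-a₁)) ^ (p - 1) := by
    rw [hsq, C_1, one_mul, C_neg, ← sub_eq_add_neg]
  obtain ⟨a, b, ha, hab⟩ := sq_eq hp2 one_ne_zero hsq'
  refine ⟨a, b, ha, ?_⟩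
  rw [E1, add_comp, pow_comp, X_comp, one_comp, ← hab]
  ring

/-- **A polynomial of degree less than `10/19 (p-1)` with range sum `p` is constant or an affine
translate of `E_1` or `E_2`.** -/
theorem classification (hp2 : p ≠ 2) (hP : P.natDegree < p) (hP1 : 0 < P.natDegree)
    (hS : rangeSum p P = p) (hD : 19 * P.natDegree < 10 * (p - 1)) :
    IsAffineTranslate P (E1 p) ∨ IsAffineTranslate P (E2 p) := by
  have hp3 : 3 ≤ p := by
    have := hp.out.two_le
    omega
  rcases dichotomy hp2 hP hP1 hS (by omega) with h | ⟨c, hc⟩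
  · rcases Nat.eq_zero_or_pos (P + derivative (w P)).natDegree with hk | hk
    · exact Or.inl (case_kappa_zero hp2 hP hP1 hS hk h)
    · have := case_kappa_pos hP hP1 hS hk h
      omega
  · exact Or.inr (translate_E2 hp2 hc)

end Theta

/-- **For every odd prime `p`, every non-constant polynomial `P` over `F_p` with range sum `p` that
is not an affine translate of `E_1` or of `E_2` has degree at least `10/19 (p-1)`.** -/
theorem result (p : ℕ) [Fact p.Prime] (hp2 : p ≠ 2) (P : (ZMod p)[X])
    (hconst : ∀ c : ZMod p, P ≠ C c) (hS : rangeSum p P = p)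
    (h1 : ¬ IsAffineTranslate P (E1 p)) (h2 : ¬ IsAffineTranslate P (E2 p)) :
    (10 / 19 : ℝ) * ((p : ℝ) - 1) ≤ (P.natDegree : ℝ) := by
  have hp := (Fact.out : p.Prime).two_le
  have hP1 : 0 < P.natDegree := by
    rw [Nat.pos_iff_ne_zero]
    intro h0
    exact hconst _ (eq_C_of_natDegree_eq_zero h0)
  have key : 10 * (p - 1) ≤ 19 * P.natDegree := by
    by_contra hlt
    rw [not_le] at hlt
    rcases classification hp2 (by omega) hP1 hS hlt with h | h
    · exact h1 h
    · exact h2 h
  have key' : (10 : ℝ) * ((p : ℝ) - 1) ≤ 19 * (P.natDegree : ℝ) := by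
    have := (Nat.cast_le (α := ℝ)).mpr key
    rw [Nat.cast_mul, Nat.cast_mul, Nat.cast_sub (by omega)] at this
    exact_mod_cast this
  linarith

end Pool.Agent.Results.MP_b68c19_nt.Stability
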